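import Pool.Agent.H75.SQ.Basic

/-!
# Rows DFA and OPN: the real part of the sesquilinear form of a Hermitian matrix
-/

set_option autoImplicit false

open Finset Matrix Pool.Agent.H75.SQ

namespace Pool.Agent.H30.SQ

variable {ι : Type} [Fintype ι]

/-- the real part of the sesquilinear form -/
noncomputable def Rf (M : Matrix ι ι ℂ) (a b : ι → ℂ) : ℝ := (star a ⬝ᵥ M.mulVec b).re

theorem qf_eq (M : Matrix ι ι ℂ) (a : ι → ℂ) : qf M a = Rf M a a := rfl

theorem Rf_add_left (M : Matrix ι ι ℂ) (a b c : ι → ℂ) :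
    Rf M (a + b) c = Rf M a c + Rf M b c := by
  unfold Rf
  rw [star_add, add_dotProduct, Complex.add_re]

theorem Rf_add_right (M : Matrix ι ι ℂ) (a b c : ι → ℂ) :
    Rf M a (b + c) = Rf M a b + Rf M a c := by
  unfold Rf
  rw [Matrix.mulVec_add, dotProduct_add, Complex.add_re]

theorem Rf_smul_left (M : Matrix ι ι ℂ) (t : ℝ) (a b : ι → ℂ) :
    Rf M ((t : ℂ) • a) b = t * Rf M a b := by
  unfold Rf
  rw [star_smul, smul_dotProduct, smul_eq_mul]
  have h : star (t : ℂ) = (t : ℂ) := Complex.conj_ofReal t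
  rw [h, Complex.re_ofReal_mul]

theorem Rf_smul_right (M : Matrix ι ι ℂ) (t : ℝ) (a b : ι → ℂ) :
    Rf M a ((t : ℂ) • b) = t * Rf M a b := by
  unfold Rf
  rw [Matrix.mulVec_smul, dotProduct_smul, smul_eq_mul, Complex.re_ofReal_mul]

theorem dot_swap {M : Matrix ι ι ℂ} (hM : M.IsHermitian) (a b : ι → ℂ) :
    star a ⬝ᵥ M.mulVec b = star (M.mulVec a) ⬝ᵥ b := by
  rw [Matrix.star_mulVec, hM.eq, Matrix.dotProduct_mulVec]

theorem Rf_symm {M : Matrix ι ι ℂ} (hM : M.IsHermitian) (a b : ι → ℂ) :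
    Rf M a b = Rf M b a := by
  unfold Rf
  rw [dot_swap hM a b, Matrix.star_dotProduct]
  exact Complex.conj_re _

theorem Rf_zero_left (M : Matrix ι ι ℂ) (b : ι → ℂ) : Rf M 0 b = 0 := by
  have h := Rf_smul_left M 0 0 b
  simpa using h

theorem Rf_zero_right (M : Matrix ι ι ℂ) (b : ι → ℂ) : Rf M b 0 = 0 := by
  have h := Rf_smul_right M 0 b 0
  simpa using h

theorem nm_sq (a : ι → ℂ) : nm a ^ 2 = ∑ x, ‖a x‖ ^ 2 := by
  unfold nm
  rw [Real.sq_sqrt (Finset.sum_nonneg fun x _ => sq_nonneg _)]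

theorem nm_nonneg (a : ι → ℂ) : 0 ≤ nm a := Real.sqrt_nonneg _

theorem nm_eq (a : ι → ℂ) : nm a = ‖(WithLp.toLp 2 a : EuclideanSpace ℂ ι)‖ := by
  rw [EuclideanSpace.norm_eq]
  rfl

theorem nm_add_le (a b : ι → ℂ) : nm (a + b) ≤ nm a + nm b := by
  rw [nm_eq, nm_eq, nm_eq]
  exact norm_add_le (WithLp.toLp 2 a : EuclideanSpace ℂ ι) (WithLp.toLp 2 b)

theorem nm_smul (t : ℂ) (a : ι → ℂ) : nm (t • a) = ‖t‖ * nm a := by
  rw [nm_eq, nm_eq]
  exact norm_smul t (WithLp.toLp 2 a : EuclideanSpace ℂ ι)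

theorem nm_eq_zero {a : ι → ℂ} (h : nm a = 0) : a = 0 := by
  have h1 : ∑ x, ‖a x‖ ^ 2 = 0 := by rw [← nm_sq, h]; ring
  rw [Finset.sum_eq_zero_iff_of_nonneg (fun x _ => sq_nonneg _)] at h1
  funext x
  have := h1 x (Finset.mem_univ x)
  simpa using this

/-- observables of norm at most one -/
theorem Rf_le {M : Matrix ι ι ℂ} (h : Obs M) (u v : ι → ℂ) : Rf M u v ≤ nm u * nm v := by
  have key : ∀ a b : ι → ℂ, 4 * Rf M a b ≤ 2 * nm a ^ 2 + 2 * nm b ^ 2 := by
    intro a b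
    have e1 : qf M (a + b) = Rf M a a + Rf M a b + (Rf M b a + Rf M b b) := by
      rw [qf_eq, Rf_add_left, Rf_add_right, Rf_add_right]
    have e2 : qf M (a + ((-1 : ℝ) : ℂ) • b) = Rf M a a - Rf M a b - (Rf M b a - Rf M b b) := by
      rw [qf_eq, Rf_add_left, Rf_add_right, Rf_add_right, Rf_smul_left, Rf_smul_left,
        Rf_smul_right, Rf_smul_right]
      ring
    have e3 := Rf_symm h.1 a b
    have h1 := (abs_le.1 (h.2 (a + b))).2
    have h2 := (abs_le.1 (h.2 (a + ((-1 : ℝ) : ℂ) • b))).1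
    have h3 : (∑ x, ‖(a + b) x‖ ^ 2) + ∑ x, ‖(a + ((-1 : ℝ) : ℂ) • b) x‖ ^ 2 =
        2 * nm a ^ 2 + 2 * nm b ^ 2 := by
      rw [nm_sq, nm_sq, Finset.mul_sum, Finset.mul_sum, ← Finset.sum_add_distrib,
        ← Finset.sum_add_distrib]
      refine Finset.sum_congr rfl fun x _ => ?_
      have h4 := parallelogram_law_with_norm ℝ (a x) (b x)
      have h5 : (a + ((-1 : ℝ) : ℂ) • b) x = a x - b x := by
        simp [sub_eq_add_neg]
      rw [h5, Pi.add_apply]
      nlinarith [h4]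
    linarith
  by_cases hu : nm u = 0
  · rw [nm_eq_zero hu, Rf_zero_left]
    exact mul_nonneg (nm_nonneg _) (nm_nonneg _)
  by_cases hv : nm v = 0
  · rw [nm_eq_zero hv, Rf_zero_right]
    exact mul_nonneg (nm_nonneg _) (nm_nonneg _)
  have hu' : 0 < nm u := lt_of_le_of_ne (nm_nonneg u) (Ne.symm hu)
  have hv' : 0 < nm v := lt_of_le_of_ne (nm_nonneg v) (Ne.symm hv)
  have h1 := key (((nm u)⁻¹ : ℝ) • u) (((nm v)⁻¹ : ℝ) • v)
  have e0 : ∀ (t : ℝ) (a : ι → ℂ), t • a = (t : ℂ) • a := by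
    intro t a
    funext x
    simp
  rw [e0, e0, Rf_smul_left, Rf_smul_right, nm_smul, nm_smul, Complex.norm_real, Complex.norm_real,
    Real.norm_of_nonneg (inv_nonneg.2 hu'.le), Real.norm_of_nonneg (inv_nonneg.2 hv'.le),
    inv_mul_cancel₀ hu, inv_mul_cancel₀ hv] at h1
  have h2 : (nm u)⁻¹ * ((nm v)⁻¹ * Rf M u v) ≤ 1 := by linarith
  have h3 : (nm u)⁻¹ * ((nm v)⁻¹ * Rf M u v) = Rf M u v / (nm u * nm v) := by
    field_simp
  rw [h3, div_le_one (mul_pos hu' hv')] at h2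
  exact h2

theorem pf_OPN : T_OPN := by
  intro ι _ M hM a b
  have e1 : qf M a - qf M b = Rf M (a + ((-1 : ℝ) : ℂ) • b) (a + b) := by
    rw [qf_eq, qf_eq, Rf_add_left, Rf_add_right, Rf_smul_left, Rf_add_right, Rf_symm hM.1 b a]
    ring
  have e2 : (fun x => a x - b x) = a + ((-1 : ℝ) : ℂ) • b := by
    funext x
    simp [sub_eq_add_neg]
  have h1 := Rf_le hM (a + ((-1 : ℝ) : ℂ) • b) (a + b)
  have h2 := Rf_le hM (((-1 : ℝ) : ℂ) • (a + ((-1 : ℝ) : ℂ) • b)) (a + b)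
  rw [Rf_smul_left, nm_smul] at h2
  have h3 : ‖((-1 : ℝ) : ℂ)‖ = 1 := by simp
  rw [h3, one_mul] at h2
  have h4 := nm_add_le a b
  have h5 := nm_nonneg (a + ((-1 : ℝ) : ℂ) • b)
  rw [e1, e2, abs_le]
  constructor
  · nlinarith
  · nlinarith

/-- effects: the inequality of Cauchy and Schwarz -/
theorem Rf_cs {M : Matrix ι ι ℂ} (h : Eff M) (u v : ι → ℂ) :
    Rf M u v ≤ Real.sqrt (qf M u) * Real.sqrt (qf M v) := by
  have h1 : ∀ t : ℝ, 0 ≤ qf M v * (t * t) + (-(2 * Rf M u v)) * t + qf M u := by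
    intro t
    have h2 := (h.2 (u + ((-t : ℝ) : ℂ) • v)).1
    rw [qf_eq, Rf_add_left, Rf_add_right, Rf_add_right, Rf_smul_left, Rf_smul_left,
      Rf_smul_right, Rf_smul_right, Rf_symm h.1 v u] at h2
    rw [qf_eq, qf_eq]
    linarith
  have h3 := discrim_le_zero h1
  unfold discrim at h3
  have h4 : Rf M u v ^ 2 ≤ qf M u * qf M v := by nlinarith
  rw [← Real.sqrt_mul (h.2 u).1]
  exact Real.le_sqrt_of_sq_le h4

theorem pf_DFA : T_DFA := by
  intro ι _ M hM x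
  by_cases h0 : Real.sqrt (qf M x) = 0
  · refine ⟨0, ?_, ?_⟩
    · unfold nm
      simp
    · intro x'
      rw [h0]
      have := Real.sqrt_nonneg (qf M x')
      simp
  · set N := Real.sqrt (qf M x) with hN
    have hN0 : 0 < N := lt_of_le_of_ne (Real.sqrt_nonneg _) (Ne.symm h0)
    have hNN : N ^ 2 = Rf M x x := by
      rw [hN, Real.sq_sqrt (hM.2 x).1, qf_eq]
    have h1 : nm (M.mulVec x) ≤ N := by
      have e1 : nm (M.mulVec x) ^ 2 = Rf M (M.mulVec x) x := by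
        rw [nm_sq]
        unfold Rf dotProduct
        rw [Complex.re_sum]
        refine Finset.sum_congr rfl fun s _ => ?_
        rw [Pi.star_apply]
        have : star (M.mulVec x s) * M.mulVec x s = ((‖M.mulVec x s‖ ^ 2 : ℝ) : ℂ) := by
          have := Complex.conj_mul' (M.mulVec x s)
          rw [Complex.ofReal_pow]
          exact this
        rw [this, Complex.ofReal_re]
      have h2 := Rf_cs hM (M.mulVec x) x
      have h3 : Real.sqrt (qf M (M.mulVec x)) ≤ nm (M.mulVec x) := by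
        unfold nm
        exact Real.sqrt_le_sqrt (hM.2 _).2
      by_cases h4 : nm (M.mulVec x) = 0
      · rw [h4]
        exact hN0.le
      have h5 : 0 < nm (M.mulVec x) := lt_of_le_of_ne (nm_nonneg _) (Ne.symm h4)
      have h6 : nm (M.mulVec x) ^ 2 ≤ nm (M.mulVec x) * N := by
        rw [e1]
        exact h2.trans (mul_le_mul_of_nonneg_right h3 hN0.le)
      nlinarith
    refine ⟨((N⁻¹ : ℝ) : ℂ) • M.mulVec x, ?_, ?_⟩
    · rw [nm_smul, Complex.norm_real, Real.norm_of_nonneg (inv_nonneg.2 hN0.le)]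
      rw [inv_mul_le_iff₀ hN0]
      linarith
    · intro x'
      have e1 : ∑ s, star ((((N⁻¹ : ℝ) : ℂ) • M.mulVec x) s) * (x s - x' s) =
          ((N⁻¹ : ℝ) : ℂ) * (star (M.mulVec x) ⬝ᵥ (x + ((-1 : ℝ) : ℂ) • x')) := by
        unfold dotProduct
        rw [Finset.mul_sum]
        refine Finset.sum_congr rfl fun s _ => ?_
        have e2 : (x + ((-1 : ℝ) : ℂ) • x') s = x s - x' s := by
          simp [sub_eq_add_neg]
        have e3 : star (((N⁻¹ : ℝ) : ℂ)) = ((N⁻¹ : ℝ) : ℂ) := Complex.conj_ofReal _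
        rw [e2, Pi.smul_apply, smul_eq_mul, star_mul', e3, Pi.star_apply]
        ring
      rw [e1, ← dot_swap hM.1]
      have h2 : N⁻¹ * Rf M x (x + ((-1 : ℝ) : ℂ) • x') ≤
          ‖((N⁻¹ : ℝ) : ℂ) * (star x ⬝ᵥ M.mulVec (x + ((-1 : ℝ) : ℂ) • x'))‖ := by
        refine le_trans (le_of_eq ?_) (Complex.re_le_norm _)
        rw [Complex.re_ofReal_mul]
        rfl
      refine le_trans ?_ h2
      rw [Rf_add_right, Rf_smul_right, ← hNN]
      have h3 := Rf_cs hM x x'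
      rw [← hN] at h3
      have h4 : N⁻¹ * (N ^ 2 + -1 * Rf M x x') = N - Rf M x x' / N := by
        field_simp
        ring
      rw [h4]
      have h5 : Rf M x x' / N ≤ Real.sqrt (qf M x') := by
        rw [div_le_iff₀ hN0]
        linarith
      linarith

end Pool.Agent.H30.SQ
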